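import Pool.Agent.H971R3.Defs
import Pool.Agent.H971R3.Streets
import Pool.Agent.H971R3.Poly

/-!
# A compact length space of covering dimension one which is not pro-Minkowski of rank one

The definitions `IsLengthSpace`, `HasCoveringDim`, `IsMinkowskiPolyhedron` and `IsProMinkowski` are
in `Pool.Agent.H971R3.Defs`.  The example is a fat Sierpinski carpet with its intrinsic metric
coming from the `ℓ¹` metric of the plane.
-/

namespace Pool.Agent.Results.MP_616ade_gt.FatCarpet

open Pool.Agent.H971R3 Set Filter Topology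

/-- The projections of a pro-Minkowski space onto the terms of the inverse sequence are
`1`-Lipschitz. -/
theorem proj_lipschitz {X : Type*} [MetricSpace X] {M : ℕ → Type} [∀ n, MetricSpace (M n)]
    {f : ∀ n, M (n + 1) → M n} (hf : ∀ n, LipschitzWith 1 (f n)) {π : ∀ n, X → M n}
    (hπ : ∀ n x, f n (π (n + 1) x) = π n x)
    (hlim : ∀ x x' : X, Tendsto (fun n => dist (π n x) (π n x')) atTop (𝓝 (dist x x')))
    (n : ℕ) (x x' : X) : dist (π n x) (π n x') ≤ dist x x' := by
  have hmono : Monotone fun n => dist (π n x) (π n x') := by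
    apply monotone_nat_of_le_succ
    intro n
    rw [← hπ n x, ← hπ n x']
    have := (hf n).dist_le_mul (π (n + 1) x) (π (n + 1) x')
    rw [NNReal.coe_one, one_mul] at this
    exact this
  exact hmono.ge_of_tendsto (hlim x x') n

/-- The projections are uniformly almost isometric. -/
theorem proj_uniform {X : Type*} [MetricSpace X] [CompactSpace X] {M : ℕ → Type}
    [∀ n, MetricSpace (M n)] {π : ∀ n, X → M n}
    (hle : ∀ (n : ℕ) (x x' : X), dist (π n x) (π n x') ≤ dist x x')
    (hlim : ∀ x x' : X, Tendsto (fun n => dist (π n x) (π n x')) atTop (𝓝 (dist x x')))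
    {ε : ℝ} (hε : 0 < ε) : ∃ n, ∀ x x' : X, dist x x' - ε ≤ dist (π n x) (π n x') := by
  obtain ⟨t, _, htfin, htcov⟩ := finite_cover_balls_of_compact (isCompact_univ (X := X))
    (show 0 < ε / 5 by linarith)
  have h1 : ∀ᶠ n in atTop, ∀ p ∈ t ×ˢ t, dist p.1 p.2 - ε / 5 < dist (π n p.1) (π n p.2) := by
    rw [Filter.eventually_all_finite (htfin.prod htfin)]
    intro p _
    exact (hlim p.1 p.2).eventually (lt_mem_nhds (by linarith))
  obtain ⟨n, hn⟩ := h1.exists
  refine ⟨n, fun x x' => ?_⟩
  obtain ⟨y, hy, hxy⟩ := mem_iUnion₂.1 (htcov (mem_univ x))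
  obtain ⟨y', hy', hxy'⟩ := mem_iUnion₂.1 (htcov (mem_univ x'))
  rw [Metric.mem_ball] at hxy hxy'
  have h2 := hn (y, y') ⟨hy, hy'⟩
  have h3 := dist_triangle4 (π n y) (π n x) (π n x') (π n y')
  have h4 := hle n y x
  have h5 := hle n x' y'
  have h6 := dist_triangle4 x y y' x'
  rw [dist_comm y x] at h4
  rw [dist_comm y' x'] at h6
  simp only at h2
  linarith

/-- There is a compact length space of Lebesgue covering dimension `1` which is not a
pro-Minkowski space of rank at most `1`. -/
theorem result : ∃ (X : Type) (_ : MetricSpace X),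
    CompactSpace X ∧ IsLengthSpace X ∧ HasCoveringDim X 1 ∧ ¬ IsProMinkowski 1 X := by
  refine ⟨Carpet, inferInstance, inferInstance, Carpet.isLengthSpace, hasCoveringDim_one, ?_⟩
  rintro ⟨_, M, hM, f, hpoly, hf, π, hπ, _, hlim⟩
  have hle := proj_lipschitz hf hπ hlim
  obtain ⟨n, hn⟩ := proj_uniform hle hlim (show (0 : ℝ) < 1 / 10 by norm_num)
  obtain ⟨η, hη, h4⟩ := (hpoly n).fourPoint
  exact no_map hη h4 (π n) (hle n) hn

end Pool.Agent.Results.MP_616ade_gt.FatCarpet
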